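import Pool.Agent.Helper51.NE.Pack

/-!
# The loop over the states of the tall block

States `T, P, Q` with `v 1 0 = -T`, `v 1 2 = P`, `v 1 3 = Q`, all natural numbers. The tables are packed, 32 bits
per entry.
-/

set_option autoImplicit false

namespace Pool.Agent.Helper30.NE

open Pool.Agent.Helper51.NE (hor)

/-- evaluate the number first -/
noncomputable def force (n : ℕ) (f : ℕ → Bool) : Bool := Nat.rec (f 0) (fun m _ => f (Nat.succ m)) n

theorem force_eq (n : ℕ) (f : ℕ → Bool) : force n f = f n := by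
  cases n <;> rfl

/-- `f` holds for `lo ≤ n ≤ hi` -/
noncomputable def allr (lo hi : ℕ) (f : ℕ → Bool) : Bool :=
  Nat.rec true (fun i r => cond (f (Nat.add lo i)) r false) (Nat.sub (Nat.succ hi) lo)

theorem allr_aux (lo : ℕ) (f : ℕ → Bool) (k : ℕ)
    (h : (Nat.rec true (fun i r => cond (f (Nat.add lo i)) r false) k : Bool) = true) :
    ∀ i, i < k → f (lo + i) = true := by
  induction k with
  | zero => intro i hi; omega
  | succ k ih =>
    intro i hi
    have h' : (cond (f (Nat.add lo k))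
      (Nat.rec true (fun i r => cond (f (Nat.add lo i)) r false) k : Bool) false) = true := h
    have hk : f (lo + k) = true := by
      by_contra hc
      have hc' : f (Nat.add lo k) = false := by
        have : f (lo + k) = false := by simpa using hc
        exact this
      rw [hc'] at h'
      exact Bool.false_ne_true h'
    have hk' : f (Nat.add lo k) = true := hk
    rw [hk'] at h'
    rcases Nat.lt_succ_iff_lt_or_eq.1 hi with h1 | h1
    · exact ih h' i h1
    · rw [h1]; exact hk

theorem allr_of {lo hi : ℕ} {f : ℕ → Bool} (h : allr lo hi f = true) {n : ℕ} (h1 : lo ≤ n)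
    (h2 : n ≤ hi) : f n = true := by
  have := allr_aux lo f (Nat.sub (Nat.succ hi) lo) h (n - lo) (by
    show n - lo < hi + 1 - lo
    omega)
  rwa [Nat.add_sub_cancel' h1] at this

/-- the entry `i` of a packed table -/
def at32 (T i : ℕ) : ℕ := Nat.land (Nat.shiftRight T (Nat.mul 32 i)) 4294967295

/-- all entries are small -/
def small : List ℕ → Bool
  | [] => true
  | a :: l => cond (Nat.blt a 4294967296) (small l) false

theorem at32_zero (T : ℕ) : at32 T 0 = T % 4294967296 := by
  show (T >>> (32 * 0)) &&& (2 ^ 32 - 1) = _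
  rw [Nat.and_two_pow_sub_one_eq_mod, mul_zero, Nat.shiftRight_zero]

theorem at32_succ (T i : ℕ) : at32 T (i + 1) = at32 (T / 4294967296) i := by
  show (T >>> (32 * (i + 1))) &&& _ = ((T / 4294967296) >>> (32 * i)) &&& _
  rw [show 32 * (i + 1) = 32 + 32 * i by ring, Nat.shiftRight_add,
    Nat.shiftRight_eq_div_pow T 32]

theorem at32_hor {l : List ℕ} (h : small l = true) (i : ℕ) :
    at32 (hor 4294967296 l) i = l.getD i 0 := by
  induction l generalizing i with
  | nil =>
    show at32 0 i = _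
    show (0 >>> (32 * i)) &&& _ = _
    rw [Nat.zero_shiftRight, Nat.zero_and]
    simp
  | cons a l ih =>
    have h' : (cond (Nat.blt a 4294967296) (small l) false) = true := h
    have ha : a < 4294967296 := by
      by_contra hc
      have : Nat.blt a 4294967296 = false := by
        rw [Bool.eq_false_iff]
        intro h2
        exact hc (Nat.le_of_ble_eq_true h2)
      rw [this] at h'
      exact Bool.false_ne_true h'
    have hs : small l = true := by
      have : Nat.blt a 4294967296 = true := Nat.ble_eq_true_of_le ha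
      rw [this] at h'
      exact h'
    have e : hor 4294967296 (a :: l) = a + 4294967296 * hor 4294967296 l := rfl
    rw [e]
    cases i with
    | zero =>
      rw [at32_zero, Nat.add_mul_mod_self_left, Nat.mod_eq_of_lt ha]
      simp
    | succ i =>
      rw [at32_succ, Nat.add_mul_div_left _ _ (by norm_num), Nat.div_eq_of_lt ha, zero_add, ih hs]
      simp

/-- the inequality at one state; `s = P + Q`, `e = 20 + T - s` -/
def ineq (t1 t2 t3 t4 t5 t6 C T P Q s e w : ℕ) : Bool :=
  Nat.ble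
    (Nat.add (Nat.add 224000 (Nat.add (Nat.mul 240 (Nat.mul e e)) (Nat.mul w (Nat.mul w w))))
      (Nat.mul 2 (Nat.add (Nat.add (Nat.add (at32 t1 (Nat.add P 20)) (at32 t2 (Nat.sub 20 T)))
        (Nat.add (at32 t3 (Nat.add Q 20)) (at32 t4 (Nat.sub (Nat.add P 20) T))))
        (Nat.add (at32 t5 (Nat.sub (Nat.add Q 20) T)) (at32 t6 (Nat.sub (Nat.add s 20) T))))))
    (Nat.add C (Nat.add (Nat.mul (Nat.mul 6 (Nat.sub 40 e))
      (Nat.add (Nat.mul T T) (Nat.add (Nat.mul P P) (Nat.mul Q Q))))
      (Nat.add (Nat.mul 12000 e) (Nat.mul 2 (Nat.mul e (Nat.mul e e))))))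

/-- the state is outside of the boxes or the inequality holds -/
noncomputable def state (t1 t2 t3 t4 t5 t6 C l4 h4 l5 h5 l6 h6 T P Q : ℕ) : Bool :=
  force (Nat.add P Q) fun s =>
    cond (Nat.ble s (Nat.add 20 T))
    (cond (Nat.ble T (Nat.add s 4))
    (cond (Nat.ble (Nat.add P T) (Nat.add 21 Q))
    (cond (Nat.ble (Nat.add Q T) (Nat.add 21 P))
    (cond (Nat.ble (Nat.add l4 T) (Nat.add P 20))
    (cond (Nat.ble (Nat.add P 20) (Nat.add h4 T))
    (cond (Nat.ble (Nat.add l5 T) (Nat.add Q 20))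
    (cond (Nat.ble (Nat.add Q 20) (Nat.add h5 T))
    (cond (Nat.ble (Nat.add l6 T) (Nat.add s 20))
    (cond (Nat.ble (Nat.add s 20) (Nat.add h6 T))
    (force (Nat.sub (Nat.add 20 T) s) fun e => force (Nat.sub (Nat.add s T) 20) fun w =>
      ineq t1 t2 t3 t4 t5 t6 C T P Q s e w)
    true) true) true) true) true) true) true) true) true) true

/-- all states; the boxes of `P` are `l1, h1`, of `T` `l2, h2`, of `Q` `l3, h3`, of the others shifted by `20` -/
noncomputable def loop (t1 t2 t3 t4 t5 t6 C l1 h1 l2 h2 l3 h3 l4 h4 l5 h5 l6 h6 : ℕ) : Bool :=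
  allr l2 h2 fun T => force T fun T => allr l1 h1 fun P => force P fun P =>
    allr l3 h3 fun Q => force Q fun Q => state t1 t2 t3 t4 t5 t6 C l4 h4 l5 h5 l6 h6 T P Q

theorem cond_true' {b c : Bool} (h : cond b c true = true) (hb : b = true) : c = true := by
  rw [hb] at h
  exact h

theorem ble' {a b : ℕ} (h : a ≤ b) : Nat.ble a b = true := Nat.ble_eq_true_of_le h

theorem state_of {t1 t2 t3 t4 t5 t6 C l4 h4 l5 h5 l6 h6 T P Q : ℕ}
    (h : state t1 t2 t3 t4 t5 t6 C l4 h4 l5 h5 l6 h6 T P Q = true)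
    (g1 : P + Q ≤ 20 + T) (g2 : T ≤ P + Q + 4) (g3 : P + T ≤ 21 + Q) (g4 : Q + T ≤ 21 + P)
    (g5 : l4 + T ≤ P + 20) (g6 : P + 20 ≤ h4 + T) (g7 : l5 + T ≤ Q + 20) (g8 : Q + 20 ≤ h5 + T)
    (g9 : l6 + T ≤ P + Q + 20) (g10 : P + Q + 20 ≤ h6 + T) :
    224000 + (240 * ((20 + T - (P + Q)) * (20 + T - (P + Q))) + (P + Q + T - 20) *
      ((P + Q + T - 20) * (P + Q + T - 20))) + 2 * ((at32 t1 (P + 20) + at32 t2 (20 - T)) +
      (at32 t3 (Q + 20) + at32 t4 (P + 20 - T)) + (at32 t5 (Q + 20 - T) +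
      at32 t6 (P + Q + 20 - T))) ≤
      C + (6 * (40 - (20 + T - (P + Q))) * (T * T + (P * P + Q * Q)) +
        (12000 * (20 + T - (P + Q)) + 2 * ((20 + T - (P + Q)) *
          ((20 + T - (P + Q)) * (20 + T - (P + Q)))))) := by
  unfold state at h
  rw [force_eq] at h
  have h := cond_true' h (ble' g1)
  have h := cond_true' h (ble' g2)
  have h := cond_true' h (ble' g3)
  have h := cond_true' h (ble' g4)
  have h := cond_true' h (ble' g5)
  have h := cond_true' h (ble' g6)
  have h := cond_true' h (ble' g7)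
  have h := cond_true' h (ble' g8)
  have h := cond_true' h (ble' g9)
  have h := cond_true' h (ble' g10)
  rw [force_eq, force_eq] at h
  exact Nat.le_of_ble_eq_true h

theorem loop_of {t1 t2 t3 t4 t5 t6 C l1 h1 l2 h2 l3 h3 l4 h4 l5 h5 l6 h6 : ℕ}
    (h : loop t1 t2 t3 t4 t5 t6 C l1 h1 l2 h2 l3 h3 l4 h4 l5 h5 l6 h6 = true) {T P Q : ℕ}
    (a1 : l1 ≤ P) (a2 : P ≤ h1) (c1 : l2 ≤ T) (c2 : T ≤ h2) (b1 : l3 ≤ Q) (b2 : Q ≤ h3) :
    state t1 t2 t3 t4 t5 t6 C l4 h4 l5 h5 l6 h6 T P Q = true := by
  unfold loop at h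
  have h := allr_of h c1 c2
  rw [force_eq] at h
  have h := allr_of h a1 a2
  rw [force_eq] at h
  have h := allr_of h b1 b2
  rwa [force_eq] at h

end Pool.Agent.Helper30.NE
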