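import Pool.Agent.Helper30.NE.TallReal
import Pool.Agent.Helper30.NE.TallLoop

/-!
# The check of the tall block
-/

set_option autoImplicit false

namespace Pool.Agent.Helper30.NE

open Pool.Agent.Helper51.NE (hor)
open Pool.Agent.Helper95.TS (interp)
open Pool.Agent.Helper44.TS (RM)

/-- the value of a table at `n` -/
def tab (l : List ℕ) (n : ℤ) : ℤ := (l.getD (n + 20).toNat 0 : ℤ) - 4194304

/-- **The check of the tall block**: tables on `v 1 2`, `v 1 0`, `v 1 3`, `v 1 2 + v 1 0`, `v 1 0 + v 1 3`, `20 - e 1`;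
the boxes of the same six features. -/
noncomputable def tallChk (t1 t2 t3 t4 t5 t6 : List ℕ) (Mn : ℕ) (l1 h1 l2 h2 l3 h3 l4 h4 l5 h5 l6 h6 : ℤ) : Bool :=
  cond (small t1) (cond (small t2) (cond (small t3) (cond (small t4) (cond (small t5)
    (cond (small t6)
    (force (hor 4294967296 t1) fun T1 => force (hor 4294967296 t2) fun T2 =>
      force (hor 4294967296 t3) fun T3 => force (hor 4294967296 t4) fun T4 =>
      force (hor 4294967296 t5) fun T5 => force (hor 4294967296 t6) fun T6 =>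
      force (Nat.mul 2 Mn) fun C => force (max l1 0).toNat fun L1 => force h1.toNat fun H1 =>
      force (max (-h2) 13).toNat fun L2 => force (min (-l2) 20).toNat fun H2 =>
      force (max l3 0).toNat fun L3 => force h3.toNat fun H3 =>
      force (l4 + 20).toNat fun L4 => force (h4 + 20).toNat fun H4 =>
      force (l5 + 20).toNat fun L5 => force (h5 + 20).toNat fun H5 =>
      force (l6 + 20).toNat fun L6 => force (h6 + 20).toNat fun H6 =>
      loop T1 T2 T3 T4 T5 T6 C L1 H1 L2 H2 L3 H3 L4 H4 L5 H5 L6 H6)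
    false) false) false) false) false) false

theorem RM_nat {T P Q e w : ℕ} (he : P + Q + e = 20 + T)
    (hw : w = P + Q + T - 20) :
    2 * RM (-(T : ℝ)) P Q = 224000 + 240 * (e : ℝ) * e + (w : ℝ) * (w * w)
      - 6 * (40 - (e : ℝ)) * (T * T + (P * P + Q * Q)) - 12000 * e - 2 * (e * (e * e)) := by
  have e1 : (e : ℝ) = 20 - (-(T : ℝ) + P + Q) := by
    have : (P : ℝ) + Q + e = 20 + T := by exact_mod_cast he
    linarith
  have hm : max (-(T : ℝ) + P + Q - 20 - 2 * -(T : ℝ)) 0 = w := by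
    rcases le_total (P + Q + T) 20 with h | h
    · have : w = 0 := by omega
      subst this
      have h' : (P : ℝ) + Q + T ≤ 20 := by exact_mod_cast h
      rw [max_eq_right (by linarith)]
      norm_num
    · have h' : (20 : ℝ) ≤ P + Q + T := by exact_mod_cast h
      have : ((w + 20 : ℕ) : ℝ) = ((P + Q + T : ℕ) : ℝ) := by
        congr 1
        omega
      push_cast at this
      rw [max_eq_left (by linarith)]
      linarith
  unfold RM Pool.Agent.Helper62.NE.pR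
  rw [hm, e1]
  ring

theorem tab_nat (l : List ℕ) {n : ℤ} {i : ℕ} (h : n + 20 = i) :
    tab l n = (l.getD i 0 : ℤ) - 4194304 := by
  unfold tab
  rw [h]
  rfl

/-- **The tall block.** `x = v 1 2`, `y = v 1 0`, `z = v 1 3` -/
theorem tall_block {t1 t2 t3 t4 t5 t6 : List ℕ} {Mn : ℕ} {l1 h1 l2 h2 l3 h3 l4 h4 l5 h5 l6 h6 : ℤ}
    (hc : tallChk t1 t2 t3 t4 t5 t6 Mn l1 h1 l2 h2 l3 h3 l4 h4 l5 h5 l6 h6 = true) {K : ℝ}
    {x y z : ℝ} (hr : TallRound K x y z)
    (x1 : (l1 : ℝ) ≤ x) (x2 : x ≤ h1) (y1 : (l2 : ℝ) ≤ y) (y2 : y ≤ h2)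
    (z1 : (l3 : ℝ) ≤ z) (z2 : z ≤ h3) (a1 : (l4 : ℝ) ≤ x + y) (a2 : x + y ≤ h4)
    (b1 : (l5 : ℝ) ≤ y + z) (b2 : y + z ≤ h5) (s1 : (l6 : ℝ) ≤ x + y + z) (s2 : x + y + z ≤ h6)
    (hx : x - y - z ≤ 20) (hz : z - x - y ≤ 20) (x0 : 0 ≤ x) (z0 : 0 ≤ z) (_ : -20 ≤ y)
    (y3 : y ≤ -13) (s0 : -4 ≤ x + y + z) (s3 : x + y + z ≤ 20) :
    RM y x z + (interp (fun n => (tab t1 n : ℝ)) x + interp (fun n => (tab t2 n : ℝ)) y
      + interp (fun n => (tab t3 n : ℝ)) z + interp (fun n => (tab t4 n : ℝ)) (x + y)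
      + interp (fun n => (tab t5 n : ℝ)) (y + z) + interp (fun n => (tab t6 n : ℝ)) (x + y + z)) ≤
      (Mn : ℝ) - 25165824 + K := by
  refine tall_real _ _ _ _ _ _ _ K (max l1 0) (max l2 (-20)) (max l3 0) l4 l5 (max l6 (-4)) h1
    (min h2 (-13)) h3 h4 h5 (min h6 20) ?_ hr (by push_cast; exact max_le x1 x0) x2
    (by push_cast; exact max_le y1 (by linarith)) (by push_cast; exact le_min y2 (by linarith))
    (by push_cast; exact max_le z1 z0) z2 a1 a2 b1 b2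
    (by push_cast; exact max_le s1 (by linarith)) (by push_cast; exact le_min s2 (by linarith))
    hx hz
  intro a b c g1 g2 g3 g4 g5 g6 g7 g8 g9 g10 g11 g12 g13 g14
  rw [max_le_iff] at g1 g3 g5 g11
  rw [le_min_iff] at g4 g12
  obtain ⟨P, rfl⟩ := Int.eq_ofNat_of_zero_le g1.2
  obtain ⟨Q, rfl⟩ := Int.eq_ofNat_of_zero_le g5.2
  obtain ⟨T, hT⟩ := Int.eq_ofNat_of_zero_le (show 0 ≤ -b by omega)
  obtain rfl : b = -(T : ℤ) := by omega
  -- unfold the check
  unfold tallChk at hc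
  have c1 : small t1 = true := by
    by_contra h
    rw [Bool.not_eq_true] at h
    rw [h] at hc
    exact Bool.false_ne_true hc
  rw [c1] at hc
  have c2 : small t2 = true := by
    by_contra h
    rw [Bool.not_eq_true] at h
    rw [h] at hc
    exact Bool.false_ne_true hc
  rw [c2] at hc
  have c3 : small t3 = true := by
    by_contra h
    rw [Bool.not_eq_true] at h
    rw [h] at hc
    exact Bool.false_ne_true hc
  rw [c3] at hc
  have c4 : small t4 = true := by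
    by_contra h
    rw [Bool.not_eq_true] at h
    rw [h] at hc
    exact Bool.false_ne_true hc
  rw [c4] at hc
  have c5 : small t5 = true := by
    by_contra h
    rw [Bool.not_eq_true] at h
    rw [h] at hc
    exact Bool.false_ne_true hc
  rw [c5] at hc
  have c6 : small t6 = true := by
    by_contra h
    rw [Bool.not_eq_true] at h
    rw [h] at hc
    exact Bool.false_ne_true hc
  rw [c6] at hc
  simp only [cond_true, force_eq] at hc
  have hl := loop_of hc (T := T) (P := P) (Q := Q) (by omega) (by omega) (by omega) (by omega)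
    (by omega) (by omega)
  have hs := state_of hl (by omega) (by omega) (by omega) (by omega) (by omega) (by omega)
    (by omega) (by omega) (by omega) (by omega)
  rw [at32_hor c1, at32_hor c2, at32_hor c3, at32_hor c4, at32_hor c5, at32_hor c6] at hs
  obtain ⟨e, he⟩ : ∃ e, e = 20 + T - (P + Q) := ⟨_, rfl⟩
  obtain ⟨w, hw⟩ : ∃ w, w = P + Q + T - 20 := ⟨_, rfl⟩
  rw [← he, ← hw] at hs
  have he40 : e ≤ 40 := by omega
  have hR := RM_nat (T := T) (P := P) (Q := Q) (e := e) (w := w) (by omega) hw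
  have q1 : tab t1 (P : ℤ) = (t1.getD (P + 20) 0 : ℤ) - 4194304 := tab_nat _ (by push_cast; ring)
  have q2 : tab t2 (-(T : ℤ)) = (t2.getD (20 - T) 0 : ℤ) - 4194304 := tab_nat _ (by omega)
  have q3 : tab t3 (Q : ℤ) = (t3.getD (Q + 20) 0 : ℤ) - 4194304 := tab_nat _ (by push_cast; ring)
  have q4 : tab t4 ((P : ℤ) + -(T : ℤ)) = (t4.getD (P + 20 - T) 0 : ℤ) - 4194304 :=
    tab_nat _ (by omega)
  have q5 : tab t5 (-(T : ℤ) + (Q : ℤ)) = (t5.getD (Q + 20 - T) 0 : ℤ) - 4194304 :=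
    tab_nat _ (by omega)
  have q6 : tab t6 ((P : ℤ) + -(T : ℤ) + Q) = (t6.getD (P + Q + 20 - T) 0 : ℤ) - 4194304 :=
    tab_nat _ (by omega)
  have hs' : (224000 : ℝ) + (240 * ((e : ℝ) * e) + (w : ℝ) * (w * w)) +
      2 * (((t1.getD (P + 20) 0 : ℕ) : ℝ) + (t2.getD (20 - T) 0 : ℕ) +
      ((t3.getD (Q + 20) 0 : ℕ) + (t4.getD (P + 20 - T) 0 : ℕ)) +
      ((t5.getD (Q + 20 - T) 0 : ℕ) + (t6.getD (P + Q + 20 - T) 0 : ℕ))) ≤
      2 * (Mn : ℝ) + (6 * (40 - (e : ℝ)) * (T * T + (P * P + Q * Q)) +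
        (12000 * e + 2 * (e * ((e : ℝ) * e)))) := by
    have h40 : ((40 - e : ℕ) : ℝ) = 40 - (e : ℝ) := by
      rw [Nat.cast_sub he40]
      norm_num
    rw [← h40]
    exact_mod_cast hs
  rw [q1, q2, q3, q4, q5, q6]
  push_cast
  linarith

/-- **The tall class of a mixed configuration**; `Mn = M + 6 * 2 ^ 22`. -/
theorem tall_block_cu {c : Pool.Agent.Helper90.TS.Cu} (h : Pool.Agent.Helper44.TS.OkU c)
    {t1 t2 t3 t4 t5 t6 : List ℕ} {Mn : ℕ} {l1 h1 l2 h2 l3 h3 l4 h4 l5 h5 l6 h6 : ℤ}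
    (hc : tallChk t1 t2 t3 t4 t5 t6 Mn l1 h1 l2 h2 l3 h3 l4 h4 l5 h5 l6 h6 = true)
    (x1 : (l1 : ℝ) ≤ c.v 1 2) (x2 : c.v 1 2 ≤ h1) (y1 : (l2 : ℝ) ≤ c.v 1 0) (y2 : c.v 1 0 ≤ h2)
    (z1 : (l3 : ℝ) ≤ c.v 1 3) (z2 : c.v 1 3 ≤ h3) (a1 : (l4 : ℝ) ≤ c.v 1 2 + c.v 1 0)
    (a2 : c.v 1 2 + c.v 1 0 ≤ h4) (b1 : (l5 : ℝ) ≤ c.v 1 0 + c.v 1 3)
    (b2 : c.v 1 0 + c.v 1 3 ≤ h5) (s1 : (l6 : ℝ) ≤ c.v 1 2 + c.v 1 0 + c.v 1 3)
    (s2 : c.v 1 2 + c.v 1 0 + c.v 1 3 ≤ h6) :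
    96000 * c.mf 1 + (interp (fun n => (tab t1 n : ℝ)) (c.v 1 2)
      + interp (fun n => (tab t2 n : ℝ)) (c.v 1 0) + interp (fun n => (tab t3 n : ℝ)) (c.v 1 3)
      + interp (fun n => (tab t4 n : ℝ)) (c.v 1 2 + c.v 1 0)
      + interp (fun n => (tab t5 n : ℝ)) (c.v 1 0 + c.v 1 3)
      + interp (fun n => (tab t6 n : ℝ)) (c.v 1 2 + c.v 1 0 + c.v 1 3)) ≤
      (Mn : ℝ) - 25165824 + 69 := by
  have e0 := h.te
  have eu := h.tu
  have ex := h.tx
  have ew := h.tw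
  have ez := h.tz
  have hr : TallRound 69 (c.v 1 2) (c.v 1 0) (c.v 1 3) :=
    Pool.Agent.Helper95.TS.RM_round_213 (v1 := c.v 1 0) (v2 := c.v 1 2) (v3 := c.v 1 3)
      (by linarith [ew.1, ew.2.1]) (by linarith [e0.1]) (by linarith) (by linarith [ex.1])
      (by linarith [ex.2])
  rw [h.tm]
  exact tall_block hc hr x1 x2 y1 y2 z1 z2 a1 a2 b1 b2 s1 s2 (by linarith [ex.1])
    (by linarith [ex.2]) (by linarith [ex.2, e0.2, ew.1, ew.2.1])
    (by linarith [ex.1, e0.2, ew.1, ew.2.1]) (by linarith [ew.2.2]) (by linarith [ew.1, ew.2.1])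
    (by linarith [e0.2]) (by linarith [e0.1])

end Pool.Agent.Helper30.NE
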