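import Pool.Agent.Helper44.NE.CellChk
import Pool.Agent.Helper44.TS.MixCu

/-!
# The check of the tall block on the grid

States `a, b, c`, `c` the tall entry: `c = -T`, `a = P`, `b = Q`. The tables are functions of `n + 20` with values
`2 ^ 22 + φ n`. The boxes of `a, b, c, a + b, b + c, a + b + c` are shifted by `20`.
-/

set_option autoImplicit false

namespace Pool.Agent.Helper30.NE

open Pool.Agent.Helper44.NE (Dom tbl tbl_ok)
open Pool.Agent.Helper44.TS (RM)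

/-- evaluate the number first -/
noncomputable def fr (n : ℕ) (f : ℕ → Bool) : Bool :=
  Nat.rec (motive := fun _ => Bool) (f 0) (fun m _ => f (Nat.succ m)) n

theorem fr_eq (n : ℕ) (f : ℕ → Bool) : fr n f = f n := by
  cases n <;> rfl

/-- `f` holds for `lo ≤ n ≤ hi` -/
noncomputable def rg (lo hi : ℕ) (f : ℕ → Bool) : Bool :=
  Nat.rec (motive := fun _ => Bool) true (fun i r => cond (f (Nat.add lo i)) r false)
    (Nat.sub (Nat.succ hi) lo)

theorem rg_aux (lo : ℕ) (f : ℕ → Bool) (k : ℕ)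
    (h : (Nat.rec (motive := fun _ => Bool) true (fun i r => cond (f (Nat.add lo i)) r false) k : Bool)
      = true) : ∀ i, i < k → f (lo + i) = true := by
  induction k with
  | zero => intro i hi; omega
  | succ k ih =>
    intro i hi
    have h' : (cond (f (Nat.add lo k))
      (Nat.rec (motive := fun _ => Bool) true (fun i r => cond (f (Nat.add lo i)) r false) k : Bool)
        false) = true := h
    have hk : f (lo + k) = true := by
      by_contra hc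
      have hc' : f (Nat.add lo k) = false := by
        have : f (lo + k) = false := by simpa using hc
        exact this
      rw [hc'] at h'
      exact Bool.false_ne_true h'
    have hk' : f (Nat.add lo k) = true := hk
    rw [hk'] at h'
    rcases Nat.lt_succ_iff_lt_or_eq.1 hi with h1 | h1
    · exact ih h' i h1
    · rw [h1]; exact hk

theorem rg_of {lo hi : ℕ} {f : ℕ → Bool} (h : rg lo hi f = true) {n : ℕ} (h1 : lo ≤ n)
    (h2 : n ≤ hi) : f n = true := by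
  have := rg_aux lo f (Nat.sub (Nat.succ hi) lo) h (n - lo) (by
    show n - lo < hi + 1 - lo
    omega)
  rwa [Nat.add_sub_cancel' h1] at this

/-- maximum and minimum -/
def mx (a b : ℕ) : ℕ := cond (Nat.ble a b) b a
def mn (a b : ℕ) : ℕ := cond (Nat.ble a b) a b

theorem mx_le {a b n : ℕ} (h1 : a ≤ n) (h2 : b ≤ n) : mx a b ≤ n := by
  unfold mx
  cases Nat.ble a b <;> assumption

theorem le_mn {a b n : ℕ} (h1 : n ≤ a) (h2 : n ≤ b) : n ≤ mn a b := by
  unfold mn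
  cases Nat.ble a b <;> assumption

/-- the inequality at one state; `s = P + Q`, `e = 20 + T - s`, `w = s + T - 20`, `A` the tables of `P` and `T`,
`G = T ^ 2 + P ^ 2`, `C` the bound -/
noncomputable def inq (fb fab fbc fS : ℕ → ℕ) (C T A G Q s e w : ℕ) : Bool :=
  Nat.ble
    (Nat.add (Nat.add 224000 (Nat.add (Nat.mul 240 (Nat.mul e e)) (Nat.mul w (Nat.mul w w))))
      (Nat.mul 2 (Nat.add (Nat.add A (fb (Nat.add Q 20)))
        (Nat.add (fab (Nat.add s 20)) (Nat.add (fbc (Nat.sub (Nat.add Q 20) T))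
          (fS (Nat.sub (Nat.add s 20) T)))))))
    (Nat.add C (Nat.add (Nat.mul (Nat.mul 6 (Nat.sub 40 e)) (Nat.add G (Nat.mul Q Q)))
      (Nat.add (Nat.mul 12000 e) (Nat.mul 2 (Nat.mul e (Nat.mul e e))))))

/-- the states with given `T`, `P` -/
noncomputable def col (fb fab fbc fS : ℕ → ℕ) (C lb hb lab hab lbc hbc lS hS T P A G : ℕ) : Bool :=
  fr (mx (mx (Nat.sub (Nat.sub T 4) P) (Nat.sub (Nat.add P T) 21))
    (mx (mx (Nat.sub lb 20) (Nat.sub lab (Nat.add 20 P)))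
      (mx (Nat.sub (Nat.add lbc T) 20) (Nat.sub (Nat.add lS T) (Nat.add 20 P))))) fun lo =>
  fr (mn (mn (Nat.sub (Nat.add 20 T) P) (mn 20 (Nat.sub (Nat.add 22 P) T)))
    (mn (mn (Nat.sub hb 20) (Nat.sub hab (Nat.add 20 P)))
      (mn (Nat.sub (Nat.add hbc T) 20) (Nat.sub (Nat.add hS T) (Nat.add 20 P))))) fun hi =>
  rg lo hi fun Q => fr Q fun Q => fr (Nat.add P Q) fun s => fr (Nat.sub (Nat.add 20 T) s) fun e =>
    inq fb fab fbc fS C T A G Q s e (Nat.sub (Nat.add s T) 20)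

/-- **The check on the grid.** -/
noncomputable def tallG (fa fb fc fab fbc fS : ℕ → ℕ) (M la ha lb hb lc hc lab hab lbc hbc lS hS : ℕ) :
    Bool :=
  fr (Nat.add (Nat.mul 2 M) 41943040) fun C =>
  rg (mx 13 (Nat.sub 20 hc)) (mn 20 (Nat.sub 20 lc)) fun T => fr T fun T =>
  rg (Nat.sub la 20) (mn 20 (Nat.sub ha 20)) fun P => fr P fun P =>
    fr (Nat.add (fa (Nat.add P 20)) (fc (Nat.sub 20 T))) fun A =>
    fr (Nat.add (Nat.mul T T) (Nat.mul P P)) fun G =>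
    col fb fab fbc fS C lb hb lab hab lbc hbc lS hS T P A G

theorem tallG_nat {fa fb fc fab fbc fS : ℕ → ℕ} {M la ha lb hb lc hc lab hab lbc hbc lS hS : ℕ}
    (h : tallG fa fb fc fab fbc fS M la ha lb hb lc hc lab hab lbc hbc lS hS = true) {T P Q : ℕ}
    (t1 : 13 ≤ T) (t2 : T ≤ 20) (p2 : P ≤ 20) (q2 : Q ≤ 20) (g1 : P + Q ≤ 20 + T)
    (g2 : T ≤ P + Q + 4) (g3 : P + T ≤ 21 + Q) (g4 : Q + T ≤ 22 + P)
    (a1 : la ≤ P + 20) (a2 : P + 20 ≤ ha) (b1 : lb ≤ Q + 20) (b2 : Q + 20 ≤ hb)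
    (c1 : lc + T ≤ 20) (c2 : 20 ≤ hc + T) (ab1 : lab ≤ P + Q + 20) (ab2 : P + Q + 20 ≤ hab)
    (bc1 : lbc + T ≤ Q + 20) (bc2 : Q + 20 ≤ hbc + T) (s1 : lS + T ≤ P + Q + 20)
    (s2 : P + Q + 20 ≤ hS + T) :
    224000 + (240 * ((20 + T - (P + Q)) * (20 + T - (P + Q))) + (P + Q + T - 20) *
      ((P + Q + T - 20) * (P + Q + T - 20))) + 2 * ((fa (P + 20) + fc (20 - T) + fb (Q + 20)) +
      (fab (P + Q + 20) + (fbc (Q + 20 - T) + fS (P + Q + 20 - T)))) ≤
      2 * M + 41943040 + (6 * (40 - (20 + T - (P + Q))) * (T * T + P * P + Q * Q) +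
        (12000 * (20 + T - (P + Q)) + 2 * ((20 + T - (P + Q)) *
          ((20 + T - (P + Q)) * (20 + T - (P + Q)))))) := by
  unfold tallG at h
  rw [fr_eq] at h
  have h := rg_of h (n := T) (mx_le t1 (by show 20 - hc ≤ T; omega))
    (le_mn t2 (by show T ≤ 20 - lc; omega))
  rw [fr_eq] at h
  have h := rg_of h (n := P) (by show la - 20 ≤ P; omega)
    (le_mn p2 (by show P ≤ ha - 20; omega))
  rw [fr_eq, fr_eq, fr_eq] at h
  unfold col at h
  rw [fr_eq, fr_eq] at h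
  have h := rg_of h (n := Q)
    (mx_le (mx_le (by show T - 4 - P ≤ Q; omega) (by show P + T - 21 ≤ Q; omega))
      (mx_le (mx_le (by show lb - 20 ≤ Q; omega) (by show lab - (20 + P) ≤ Q; omega))
        (mx_le (by show lbc + T - 20 ≤ Q; omega) (by show lS + T - (20 + P) ≤ Q; omega))))
    (le_mn (le_mn (by show Q ≤ 20 + T - P; omega) (le_mn q2 (by show Q ≤ 22 + P - T; omega)))
      (le_mn (le_mn (by show Q ≤ hb - 20; omega) (by show Q ≤ hab - (20 + P); omega))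
        (le_mn (by show Q ≤ hbc + T - 20; omega) (by show Q ≤ hS + T - (20 + P); omega))))
  rw [fr_eq, fr_eq, fr_eq] at h
  exact Nat.le_of_ble_eq_true h

theorem RM_two {T P Q e w : ℕ} (he : P + Q + e = 20 + T) (hw : w = P + Q + T - 20) :
    2 * RM (-(T : ℝ)) P Q = 224000 + 240 * (e : ℝ) * e + (w : ℝ) * (w * w)
      - 6 * (40 - (e : ℝ)) * (T * T + P * P + Q * Q) - 12000 * e - 2 * (e * (e * e)) := by
  have e1 : (e : ℝ) = 20 - (-(T : ℝ) + P + Q) := by
    have : (P : ℝ) + Q + e = 20 + T := by exact_mod_cast he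
    linarith
  have hm : max (-(T : ℝ) + P + Q - 20 - 2 * -(T : ℝ)) 0 = w := by
    rcases le_total (P + Q + T) 20 with h | h
    · have : w = 0 := by omega
      subst this
      have h' : (P : ℝ) + Q + T ≤ 20 := by exact_mod_cast h
      rw [max_eq_right (by linarith)]
      norm_num
    · have h' : (20 : ℝ) ≤ P + Q + T := by exact_mod_cast h
      have : ((w + 20 : ℕ) : ℝ) = ((P + Q + T : ℕ) : ℝ) := by
        congr 1
        omega
      push_cast at this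
      rw [max_eq_left (by linarith)]
      linarith
  unfold RM Pool.Agent.Helper62.NE.pR
  rw [hm, e1]
  ring

/-- **The tall block on the grid.** The boxes are shifted by `20`, the bound by `2 ^ 22`. -/
theorem tallG_ok {fa fb fc fab fbc fS : ℕ → ℕ} {M la ha lb hb lc hc lab hab lbc hbc lS hS : ℕ}
    (h : tallG fa fb fc fab fbc fS M la ha lb hb lc hc lab hab lbc hbc lS hS = true)
    {pa pb pc pab pbc pS : ℤ → ℝ} (da : Dom pa fa) (db : Dom pb fb) (dc : Dom pc fc)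
    (dab : Dom pab fab) (dbc : Dom pbc fbc) (dS : Dom pS fS)
    (a b c : ℤ) (c0 : -20 ≤ c) (c1 : c ≤ -13) (a1 : a ≤ 20) (b1 : b ≤ 20) (s0 : -4 ≤ a + b + c)
    (s1 : a + b + c ≤ 20) (r1 : a - (b + c) ≤ 21) (r2 : b - (a + c) ≤ 22)
    (xa : (la : ℤ) ≤ a + 20) (ya : a + 20 ≤ (ha : ℤ)) (xb : (lb : ℤ) ≤ b + 20)
    (yb : b + 20 ≤ (hb : ℤ)) (xc : (lc : ℤ) ≤ c + 20) (yc : c + 20 ≤ (hc : ℤ))
    (xab : (lab : ℤ) ≤ a + b + 20) (yab : a + b + 20 ≤ (hab : ℤ)) (xbc : (lbc : ℤ) ≤ b + c + 20)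
    (ybc : b + c + 20 ≤ (hbc : ℤ)) (xS : (lS : ℤ) ≤ a + b + c + 20)
    (yS : a + b + c + 20 ≤ (hS : ℤ)) :
    RM c a b + (pa a + pb b + pc c + pab (a + b) + pbc (b + c) + pS (a + b + c)) ≤
      (M : ℝ) - 4194304 := by
  obtain ⟨P, rfl⟩ := Int.eq_ofNat_of_zero_le (show 0 ≤ a by omega)
  obtain ⟨Q, rfl⟩ := Int.eq_ofNat_of_zero_le (show 0 ≤ b by omega)
  obtain ⟨T, hT⟩ := Int.eq_ofNat_of_zero_le (show 0 ≤ -c by omega)
  obtain rfl : c = -(T : ℤ) := by omega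
  have hs := tallG_nat h (T := T) (P := P) (Q := Q) (by omega) (by omega) (by omega) (by omega)
    (by omega) (by omega) (by omega) (by omega) (by omega) (by omega) (by omega) (by omega)
    (by omega) (by omega) (by omega) (by omega) (by omega) (by omega) (by omega) (by omega)
  obtain ⟨e, he⟩ : ∃ e, e = 20 + T - (P + Q) := ⟨_, rfl⟩
  obtain ⟨w, hw⟩ : ∃ w, w = P + Q + T - 20 := ⟨_, rfl⟩
  rw [← he, ← hw] at hs
  have he40 : e ≤ 40 := by omega
  have hR := RM_two (T := T) (P := P) (Q := Q) (e := e) (w := w) (by omega) hw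
  have q1 := da (P + 20) (by omega)
  have q2 := db (Q + 20) (by omega)
  have q3 := dc (20 - T) (by omega)
  have q4 := dab (P + Q + 20) (by omega)
  have q5 := dbc (Q + 20 - T) (by omega)
  have q6 := dS (P + Q + 20 - T) (by omega)
  rw [show ((P + 20 : ℕ) : ℤ) - 20 = P by push_cast; ring] at q1
  rw [show ((Q + 20 : ℕ) : ℤ) - 20 = Q by push_cast; ring] at q2
  rw [show ((20 - T : ℕ) : ℤ) - 20 = -(T : ℤ) by omega] at q3
  rw [show ((P + Q + 20 : ℕ) : ℤ) - 20 = (P : ℤ) + Q by push_cast; ring] at q4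
  rw [show ((Q + 20 - T : ℕ) : ℤ) - 20 = (Q : ℤ) + -(T : ℤ) by omega] at q5
  rw [show ((P + Q + 20 - T : ℕ) : ℤ) - 20 = (P : ℤ) + Q + -(T : ℤ) by omega] at q6
  have hs' : (224000 : ℝ) + (240 * ((e : ℝ) * e) + (w : ℝ) * (w * w)) +
      2 * (((fa (P + 20) : ℕ) : ℝ) + (fc (20 - T) : ℕ) + (fb (Q + 20) : ℕ) +
      ((fab (P + Q + 20) : ℕ) + ((fbc (Q + 20 - T) : ℕ) + (fS (P + Q + 20 - T) : ℕ)))) ≤
      2 * (M : ℝ) + 41943040 + (6 * (40 - (e : ℝ)) * (T * T + P * P + Q * Q) +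
        (12000 * e + 2 * (e * ((e : ℝ) * e)))) := by
    have h40 : ((40 - e : ℕ) : ℝ) = 40 - (e : ℝ) := by
      rw [Nat.cast_sub he40]
      norm_num
    rw [← h40]
    exact_mod_cast hs
  push_cast at hR ⊢
  linarith

/-- the check with the tables packed -/
noncomputable def tallT (fa fb fc fab fbc fS : ℕ → ℕ)
    (M la ha lb hb lc hc lab hab lbc hbc lS hS : ℕ) : Bool :=
  tbl fa fun fa => tbl fb fun fb => tbl fc fun fc => tbl fab fun fab => tbl fbc fun fbc =>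
    tbl fS fun fS => tallG fa fb fc fab fbc fS M la ha lb hb lc hc lab hab lbc hbc lS hS

/-- **The tall block on the grid**, tables packed by the check. -/
theorem tallT_ok {fa fb fc fab fbc fS : ℕ → ℕ} {M la ha lb hb lc hc lab hab lbc hbc lS hS : ℕ}
    (h : tallT fa fb fc fab fbc fS M la ha lb hb lc hc lab hab lbc hbc lS hS = true)
    {pa pb pc pab pbc pS : ℤ → ℝ} (da : Dom pa fa) (db : Dom pb fb) (dc : Dom pc fc)
    (dab : Dom pab fab) (dbc : Dom pbc fbc) (dS : Dom pS fS)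
    (a b c : ℤ) (c0 : -20 ≤ c) (c1 : c ≤ -13) (a1 : a ≤ 20) (b1 : b ≤ 20) (s0 : -4 ≤ a + b + c)
    (s1 : a + b + c ≤ 20) (r1 : a - (b + c) ≤ 21) (r2 : b - (a + c) ≤ 22)
    (xa : (la : ℤ) ≤ a + 20) (ya : a + 20 ≤ (ha : ℤ)) (xb : (lb : ℤ) ≤ b + 20)
    (yb : b + 20 ≤ (hb : ℤ)) (xc : (lc : ℤ) ≤ c + 20) (yc : c + 20 ≤ (hc : ℤ))
    (xab : (lab : ℤ) ≤ a + b + 20) (yab : a + b + 20 ≤ (hab : ℤ)) (xbc : (lbc : ℤ) ≤ b + c + 20)
    (ybc : b + c + 20 ≤ (hbc : ℤ)) (xS : (lS : ℤ) ≤ a + b + c + 20)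
    (yS : a + b + c + 20 ≤ (hS : ℤ)) :
    RM c a b + (pa a + pb b + pc c + pab (a + b) + pbc (b + c) + pS (a + b + c)) ≤
      (M : ℝ) - 4194304 := by
  obtain ⟨_, da, h⟩ := tbl_ok h da
  obtain ⟨_, db, h⟩ := tbl_ok h db
  obtain ⟨_, dc, h⟩ := tbl_ok h dc
  obtain ⟨_, dab, h⟩ := tbl_ok h dab
  obtain ⟨_, dbc, h⟩ := tbl_ok h dbc
  obtain ⟨_, dS, h⟩ := tbl_ok h dS
  exact tallG_ok h da db dc dab dbc dS a b c c0 c1 a1 b1 s0 s1 r1 r2 xa ya xb yb xc yc xab yab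
    xbc ybc xS yS

end Pool.Agent.Helper30.NE
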