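import Pool.Agent.Helper30.NE.TallGrid
import Pool.Agent.Helper44.NE.MixRow

/-!
# The tall row of a mixed configuration: the grid bound from the check
-/

set_option autoImplicit false

namespace Pool.Agent.Helper30.NE

open Pool.Agent.Helper44.NE Pool.Agent.Helper62.NE

/-- **The grid bound of the tall row from the check.** -/
theorem tall_bd {fa fb fc fab fbc fS : ℕ → ℕ} {M : ℕ}
    (h : tallT fa fb fc fab fbc fS M 0 40 0 40 0 40 0 60 0 60 0 60 = true) {T : TR}
    (da : Dom T.a fa) (db : Dom T.b fb) (dc : Dom T.c fc) (dab : Dom T.ab fab)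
    (dbc : Dom T.bc fbc) (dS : Dom T.S fS) : TallBd T ((M : ℝ) - 4194304) := by
  intro a b c c0 c1 a1 b1 s0 s1 r1 r2
  exact tallT_ok h da db dc dab dbc dS a b c c0 c1 a1 b1 s0 s1 r1 r2
    (by push_cast; omega) (by push_cast; omega) (by push_cast; omega) (by push_cast; omega)
    (by push_cast; omega) (by push_cast; omega) (by push_cast; omega) (by push_cast; omega)
    (by push_cast; omega) (by push_cast; omega) (by push_cast; omega) (by push_cast; omega)

end Pool.Agent.Helper30.NE
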