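import Pool.Agent.Helper95.TS.TallRound

/-!
# Rounding the tall block

`x = v 1 2`, `y = v 1 0`, `z = v 1 3` (in this order, so that the conditions `2 v + e ≤ 40` of `v 1 2` and
`v 1 3` lose only one unit). Six tables: on `x`, `y`, `z`, `x + y`, `y + z`, `x + y + z`.
-/

set_option autoImplicit false

namespace Pool.Agent.Helper30.NE

open Pool.Agent.Helper95.TS (interp Near near_floor_sub near_floor_t interp_near)
open Pool.Agent.Helper44.TS (RM)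

/-- the rounding statement of the tall block with the loss `K` -/
def TallRound (K : ℝ) (x y z : ℝ) : Prop :=
  ∃ c : Fin 3 → ℝ, ∀ t : ℝ, 0 ≤ t → t < 1 →
    RM y x z ≤ RM ((⌊x + y + t⌋ : ℝ) - ⌊x + t⌋) ⌊x + t⌋ ((⌊x + y + z + t⌋ : ℝ) - ⌊x + y + t⌋) + K
      + c 0 * ((⌊x + t⌋ : ℝ) - x) + c 1 * ((⌊x + y + t⌋ : ℝ) - (x + y))
      + c 2 * ((⌊x + y + z + t⌋ : ℝ) - (x + y + z))

/-- **The tall block**: from the grid to the reals. -/
theorem tall_real (φ₁ φ₂ φ₃ φ₄ φ₅ φ₆ : ℤ → ℝ) (M K : ℝ)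
    (l₁ l₂ l₃ l₄ l₅ l₆ h₁ h₂ h₃ h₄ h₅ h₆ : ℤ)
    (H : ∀ a b c : ℤ, l₁ ≤ a → a ≤ h₁ → l₂ ≤ b → b ≤ h₂ → l₃ ≤ c → c ≤ h₃ →
      l₄ ≤ a + b → a + b ≤ h₄ → l₅ ≤ b + c → b + c ≤ h₅ → l₆ ≤ a + b + c → a + b + c ≤ h₆ →
      a - b - c ≤ 21 → c - a - b ≤ 21 →
      RM b a c + (φ₁ a + φ₂ b + φ₃ c + φ₄ (a + b) + φ₅ (b + c) + φ₆ (a + b + c)) ≤ M)
    {x y z : ℝ} (hr : TallRound K x y z)
    (x1 : (l₁ : ℝ) ≤ x) (x2 : x ≤ h₁) (y1 : (l₂ : ℝ) ≤ y) (y2 : y ≤ h₂)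
    (z1 : (l₃ : ℝ) ≤ z) (z2 : z ≤ h₃) (a1 : (l₄ : ℝ) ≤ x + y) (a2 : x + y ≤ h₄)
    (b1 : (l₅ : ℝ) ≤ y + z) (b2 : y + z ≤ h₅) (s1 : (l₆ : ℝ) ≤ x + y + z) (s2 : x + y + z ≤ h₆)
    (hx : x - y - z ≤ 20) (hz : z - x - y ≤ 20) :
    RM y x z + (interp φ₁ x + interp φ₂ y + interp φ₃ z + interp φ₄ (x + y) + interp φ₅ (y + z)
      + interp φ₆ (x + y + z)) ≤ M + K := by
  obtain ⟨c, hc⟩ := hr
  set s1' := φ₁ (⌊x⌋ + 1) - φ₁ ⌊x⌋ with hs1
  set s2' := φ₂ (⌊y⌋ + 1) - φ₂ ⌊y⌋ with hs2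
  set s3' := φ₃ (⌊z⌋ + 1) - φ₃ ⌊z⌋ with hs3
  set s4' := φ₄ (⌊x + y⌋ + 1) - φ₄ ⌊x + y⌋ with hs4
  set s5' := φ₅ (⌊y + z⌋ + 1) - φ₅ ⌊y + z⌋ with hs5
  set s6' := φ₆ (⌊x + y + z⌋ + 1) - φ₆ ⌊x + y + z⌋ with hs6
  -- the coefficients of the partial sums
  let C : Fin 3 → ℝ := ![-(c 0) + s1' - s2' - s5', -(c 1) + s2' - s3' + s4', -(c 2) + s3' + s5' + s6']
  let Z : Fin 3 → ℝ := ![x, x + y, x + y + z]
  obtain ⟨t, t0, t1, ht⟩ := Pool.Agent.Helper95.TS.exists_theta Finset.univ C Z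
  rw [Fin.sum_univ_three] at ht
  simp only [C, Z, Matrix.cons_val_zero, Matrix.cons_val_one, Matrix.cons_val] at ht
  have n1 : Near x ⌊x + t⌋ := near_floor_t t0 t1 x
  have n4 : Near (x + y) ⌊x + y + t⌋ := near_floor_t t0 t1 (x + y)
  have n6 : Near (x + y + z) ⌊x + y + z + t⌋ := near_floor_t t0 t1 (x + y + z)
  have n2 : Near y (⌊x + y + t⌋ - ⌊x + t⌋) := by
    have := near_floor_sub (x + t) y
    rwa [show x + t + y = x + y + t by ring] at this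
  have n3 : Near z (⌊x + y + z + t⌋ - ⌊x + y + t⌋) := by
    have := near_floor_sub (x + y + t) z
    rwa [show x + y + t + z = x + y + z + t by ring] at this
  have n5 : Near (y + z) (⌊x + y + z + t⌋ - ⌊x + t⌋) := by
    have := near_floor_sub (x + t) (y + z)
    rwa [show x + t + (y + z) = x + y + z + t by ring] at this
  have e1 := interp_near φ₁ n1
  have e2 := interp_near φ₂ n2
  have e3 := interp_near φ₃ n3
  have e4 := interp_near φ₄ n4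
  have e5 := interp_near φ₅ n5
  have e6 := interp_near φ₆ n6
  have hR := hc t t0 t1
  -- abbreviate the floors
  generalize hA : ⌊x + t⌋ = A at *
  generalize hB : ⌊x + y + t⌋ = B at *
  generalize hD : ⌊x + y + z + t⌋ = D at *
  have fA : (A : ℝ) ≤ x + t ∧ x + t < A + 1 := by
    rw [← hA]; exact ⟨Int.floor_le _, Int.lt_floor_add_one _⟩
  have fB : (B : ℝ) ≤ x + y + t ∧ x + y + t < B + 1 := by
    rw [← hB]; exact ⟨Int.floor_le _, Int.lt_floor_add_one _⟩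
  have fD : (D : ℝ) ≤ x + y + z + t ∧ x + y + z + t < D + 1 := by
    rw [← hD]; exact ⟨Int.floor_le _, Int.lt_floor_add_one _⟩
  have q1 : A - (B - A) - (D - B) ≤ 21 := by
    have : (2 * A - D : ℝ) < 22 := by linarith
    have : 2 * A - D < 22 := by exact_mod_cast this
    omega
  have q2 : (D - B) - A - (B - A) ≤ 21 := by
    have : (D - 2 * B : ℝ) < 22 := by linarith
    have : D - 2 * B < 22 := by exact_mod_cast this
    omega
  have r4 : A + (B - A) = B := by ring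
  have r5 : (B - A) + (D - B) = D - A := by ring
  have r6 : A + (B - A) + (D - B) = D := by ring
  have hM := H A (B - A) (D - B) (n1.ge_of_ge x1) (n1.le_of_le x2) (n2.ge_of_ge y1)
    (n2.le_of_le y2) (n3.ge_of_ge z1) (n3.le_of_le z2) (by rw [r4]; exact n4.ge_of_ge a1)
    (by rw [r4]; exact n4.le_of_le a2) (by rw [r5]; exact n5.ge_of_ge b1)
    (by rw [r5]; exact n5.le_of_le b2) (by rw [r6]; exact n6.ge_of_ge s1)
    (by rw [r6]; exact n6.le_of_le s2) q1 q2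
  rw [r6, r4, r5, e1, e2, e3, e4, e5, e6] at hM
  rw [← hs1, ← hs2, ← hs3, ← hs4, ← hs5, ← hs6] at hM
  push_cast at hM
  linarith

end Pool.Agent.Helper30.NE
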